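import Pool.Agent.Work.MP_2738db_nt_C.Interface

set_option autoImplicit false

/-! Block FINE of MP_2738db (COPRIME EXPONENTS), helper87: the theorem for even `c`. -/

namespace Pool.Agent.Work.MP_2738db_nt_C.helper87

open Finset

theorem exists_thr (C : ℝ) (hC : 1 ≤ C) :
    ∃ L : ℝ, 1 ≤ L ∧ ∀ x : ℝ, L ≤ x → 4 * C * x ^ 6 < Real.exp x := by
  have h := Real.tendsto_pow_mul_exp_neg_atTop_nhds_zero 6
  have h1 : ∀ᶠ x : ℝ in Filter.atTop, x ^ 6 * Real.exp (-x) < 1 / (4 * C) :=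
    h.eventually_lt_const (by positivity)
  obtain ⟨L, hL⟩ := Filter.eventually_atTop.mp h1
  refine ⟨max L 1, le_max_right _ _, fun x hx => ?_⟩
  have h2 := hL x (le_trans (le_max_left _ _) hx)
  have h3 : 0 < Real.exp x := Real.exp_pos x
  rw [Real.exp_neg, ← div_eq_mul_inv, div_lt_div_iff₀ h3 (by positivity)] at h2
  linarith

theorem card_primeFactors_le (k : ℕ) (hk : 1 ≤ k) :
    (k.primeFactors.card : ℝ) ≤ 2 * Real.log k := by
  have h1 : 2 ^ k.primeFactors.card ≤ k := by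
    calc 2 ^ k.primeFactors.card = ∏ _p ∈ k.primeFactors, 2 := by
          rw [Finset.prod_const]
      _ ≤ ∏ p ∈ k.primeFactors, p :=
          Finset.prod_le_prod' fun p hp => (Nat.prime_of_mem_primeFactors hp).two_le
      _ ≤ k := Nat.le_of_dvd hk (Nat.prod_primeFactors_dvd k)
  have h2 : (k.primeFactors.card : ℝ) * Real.log 2 ≤ Real.log k := by
    rw [← Real.log_pow]
    apply Real.log_le_log (by positivity)
    exact_mod_cast h1
  have h3 : (1 : ℝ) / 2 ≤ Real.log 2 := by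
    have := Real.log_two_gt_d9
    linarith
  have h4 : (0 : ℝ) ≤ (k.primeFactors.card : ℝ) := by positivity
  nlinarith

theorem fe (hSte : Stmt_Ste) (hSve : Stmt_Sve) (hXe : Stmt_Xe) (hKe : Stmt_Ke) : Stmt_Fe := by
  obtain ⟨κ, hκ, N₀, hN₀⟩ := hSve (1 / 4) (by norm_num) (by norm_num)
  obtain ⟨C₁, hC₁, hX⟩ := hXe
  obtain ⟨C₂, hC₂, hK⟩ := hKe
  obtain ⟨L, hL1, hL⟩ := exists_thr C₁ hC₁
  obtain ⟨N₁, hN₁⟩ : ∃ N₁ : ℕ, ∀ N : ℕ, N₁ ≤ N → N₀ ≤ N ∧ 1 ≤ N ∧
      max (L ^ 2) ((C₂ + 1) ^ 4) ≤ Real.log N := by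
    have h1 : Filter.Tendsto (fun N : ℕ => Real.log (N : ℝ)) Filter.atTop Filter.atTop :=
      Real.tendsto_log_atTop.comp tendsto_natCast_atTop_atTop
    obtain ⟨N₁, h2⟩ := Filter.eventually_atTop.mp
      (h1.eventually_ge_atTop (max (L ^ 2) ((C₂ + 1) ^ 4)))
    exact ⟨max (max N₁ N₀) 1, fun N hN => ⟨by omega, by omega, h2 N (by omega)⟩⟩
  have key : ∀ N : ℕ, N₁ ≤ N → ∀ c : ℕ, 1 ≤ c → c ≤ N → 2 ∣ c → D2 c →
      ∃ u V k l A : ℕ, c = u * V ∧ 1 ≤ k ∧ l.Prime ∧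
      Real.log l ≤ Real.log N ^ (1 - (1 / 4 : ℝ)) ∧
      (k.primeFactors.card : ℝ) ≤ Real.exp (Real.log N ^ (1 - (1 / 4 : ℝ))) ∧
      EqE u V k l A := by
    intro N hN c hc1 hcN h2c hD
    obtain ⟨-, hN1, hNT⟩ := hN₁ N hN
    obtain ⟨k, x, y, l, A, hk, hxy, hy, hl, heq, hA⟩ := hD
    obtain ⟨u, V, hc, hu, hV, huV, h2u, h8, hx4, hy4⟩ := hSte x y c k hxy hy hc1 h2c hk heq
    have hE : EqE u V k l A := by
      unfold EqE
      rcases hA with rfl | rfl
      · exact Or.inl hx4.symm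
      · rcases hy4 with h | h
        · exact Or.inr (Or.inl (by omega))
        · exact Or.inr (Or.inr (by omega))
    have hA1 : 1 ≤ A := by
      rcases Nat.eq_zero_or_pos A with h0 | h0
      · exfalso
        subst h0
        have hz : (0 : ℕ) ^ l = 0 := zero_pow hl.ne_zero
        rw [hz] at hA
        rcases hA with rfl | rfl
        · have : 1 ≤ y ^ 2 := Nat.one_le_pow _ _ hy
          omega
        · omega
      · exact h0
    -- the quantities
    set t : ℝ := Real.log N with ht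
    have ht1 : (1 : ℝ) ≤ t := by
      have h1 : (1 : ℝ) ≤ L ^ 2 := one_le_pow₀ hL1
      exact le_trans h1 (le_trans (le_max_left _ _) hNT)
    have ht0 : (0 : ℝ) ≤ t := by linarith
    set s : ℝ := t ^ (1 / 4 : ℝ) with hs
    have hs4 : s ^ 4 = t := by
      rw [hs, ← Real.rpow_natCast, ← Real.rpow_mul ht0]
      norm_num
    have hs0 : 0 ≤ s := Real.rpow_nonneg ht0 _
    have hs3 : t ^ (1 - (1 / 4 : ℝ)) = s ^ 3 := by
      rw [hs, ← Real.rpow_natCast, ← Real.rpow_mul ht0]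
      norm_num
    rw [hs3]
    have hsC : C₂ + 1 ≤ s := by
      have h1 : (C₂ + 1) ^ 4 ≤ s ^ 4 := by
        rw [hs4]; exact le_trans (le_max_right _ _) hNT
      exact le_of_pow_le_pow_left₀ (by norm_num) hs0 h1
    have hs2 : (2 : ℝ) ≤ s := by linarith
    have hsL : L ≤ s ^ 2 := by
      have h1 : L ^ 2 ≤ (s ^ 2) ^ 2 := by
        rw [← pow_mul]; norm_num; rw [hs4]; exact le_trans (le_max_left _ _) hNT
      exact le_of_pow_le_pow_left₀ (by norm_num) (by positivity) h1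
    have hN0 : (0 : ℝ) < N := by exact_mod_cast hN1
    have huN : u ≤ N := by
      have : u * 1 ≤ u * V := Nat.mul_le_mul_left u hV
      omega
    have hVN : V ≤ N := by
      have : 1 * V ≤ u * V := Nat.mul_le_mul_right V hu
      omega
    have hlogu : Real.log u ≤ t := Real.log_le_log (by exact_mod_cast hu) (by exact_mod_cast huN)
    have hlogV : Real.log V ≤ t := Real.log_le_log (by exact_mod_cast hV) (by exact_mod_cast hVN)
    -- WLOG
    obtain ⟨l', hl', hE', hl2⟩ : ∃ l' : ℕ, l'.Prime ∧ EqE u V k l' A ∧ Real.log l' ≤ s ^ 2 := by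
      rcases Nat.lt_or_ge A 2 with h1 | h1
      · have hA' : A = 1 := by omega
        subst hA'
        refine ⟨2, Nat.prime_two, ?_, ?_⟩
        · unfold EqE at hE ⊢
          simpa using hE
        · have h3 := Real.log_two_lt_d9
          push_cast
          nlinarith
      · refine ⟨l, hl, hE, ?_⟩
        by_contra hcon
        push Not at hcon
        refine hX u V k l A t hu hV huV h2u h8 hk hl h1 ht1 hlogu hlogV ?_ hE
        set lam : ℝ := Real.log l with hlam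
        have hl0 : (0 : ℝ) < l := by exact_mod_cast hl.pos
        have hexp : Real.exp lam = l := Real.exp_log hl0
        rw [← hexp]
        have hlamL : L ≤ lam := by linarith
        have hlam1 : 1 ≤ lam := by linarith
        have h4 := hL lam hlamL
        have h5 : t ^ 2 ≤ lam ^ 4 := by
          have h6 : t ≤ lam ^ 2 := by
            rw [← hs4]
            calc s ^ 4 = (s ^ 2) ^ 2 := by ring
              _ ≤ lam ^ 2 := pow_le_pow_left₀ (by positivity) hcon.le 2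
          calc t ^ 2 ≤ (lam ^ 2) ^ 2 := pow_le_pow_left₀ ht0 h6 2
            _ = lam ^ 4 := by ring
        have h7 : (1 + lam) ^ 2 ≤ 4 * lam ^ 2 := by nlinarith
        calc C₁ * t ^ 2 * (1 + lam) ^ 2 ≤ C₁ * lam ^ 4 * (4 * lam ^ 2) := by
              gcongr
          _ = 4 * C₁ * lam ^ 6 := by ring
          _ < Real.exp lam := h4
    refine ⟨u, V, k, l', A, hc, hk, hl', ?_, ?_, hE'⟩
    · refine hl2.trans ?_
      nlinarith [pow_nonneg hs0 2]
    · -- the bound for k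
      have hl0 : (0 : ℝ) < l' := by exact_mod_cast hl'.pos
      have hU1 : (l' : ℝ) ≤ Real.exp (s ^ 2) := by
        rw [← Real.log_le_iff_le_exp hl0]; exact hl2
      have hU2 : t ≤ Real.exp (s ^ 2) := by
        have h1 := hL (s ^ 2) hsL
        have h2 : (1 : ℝ) ≤ s ^ 2 := by nlinarith
        have h3 : t ≤ (s ^ 2) ^ 6 := by
          rw [← hs4]
          calc s ^ 4 = (s ^ 2) ^ 2 := by ring
            _ ≤ (s ^ 2) ^ 6 := pow_le_pow_right₀ h2 (by norm_num)
        have h4 : (s ^ 2) ^ 6 ≤ 4 * C₁ * (s ^ 2) ^ 6 := by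
          have h5 : 0 ≤ (s ^ 2) ^ 6 := by positivity
          nlinarith
        linarith
      have hU3 : (2 : ℝ) ≤ Real.exp (s ^ 2) := by
        have h1 := Real.add_one_le_exp (s ^ 2)
        nlinarith
      have h1 := hK u V k l' A (Real.exp (s ^ 2)) hu hV huV h2u h8 hk hl' hA1 hU3 hU1
        (hlogu.trans hU2) (hlogV.trans hU2) hE'
      rw [← Real.exp_mul] at h1
      have h2 := card_primeFactors_le k hk
      have h3 : (2 : ℝ) ≤ Real.exp 1 := by
        have := Real.add_one_le_exp (1 : ℝ)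
        linarith
      calc (k.primeFactors.card : ℝ) ≤ 2 * Real.log k := h2
        _ ≤ Real.exp 1 * Real.exp (s ^ 2 * C₂) := by
            apply mul_le_mul h3 h1 (Real.log_nonneg (by exact_mod_cast hk)) (Real.exp_pos _).le
        _ = Real.exp (1 + s ^ 2 * C₂) := by rw [Real.exp_add]
        _ ≤ Real.exp (s ^ 3) := by
            apply Real.exp_le_exp.mpr
            have h5 : (1 : ℝ) ≤ s ^ 2 := by nlinarith
            have h6 : s ^ 2 * (C₂ + 1) ≤ s ^ 2 * s := mul_le_mul_of_nonneg_left hsC (by positivity)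
            nlinarith
  refine ⟨max 1 N₁, min κ (1 / 2), lt_min hκ (by norm_num), fun N hN => ?_⟩
  have hN1 : (1 : ℝ) ≤ N := by exact_mod_cast hN
  have hpow1 : (1 : ℝ) ≤ (N : ℝ) ^ (1 - min κ (1 / 2)) := by
    apply Real.one_le_rpow hN1
    have := min_le_right κ (1 / 2)
    linarith
  have hfinN : ({c : ℕ | 1 ≤ c ∧ c ≤ N}).Finite := Set.finite_Icc 1 N
  rcases Nat.lt_or_ge N N₁ with h | h
  · have h1 : ({c : ℕ | 1 ≤ c ∧ c ≤ N ∧ 2 ∣ c ∧ D2 c}.ncard) ≤ N := by
      calc ({c : ℕ | 1 ≤ c ∧ c ≤ N ∧ 2 ∣ c ∧ D2 c}.ncard) ≤ (Set.Icc 1 N).ncard :=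
            Set.ncard_le_ncard (fun c hc => ⟨hc.1, hc.2.1⟩) (Set.finite_Icc 1 N)
        _ = N := by
            rw [Set.ncard_eq_toFinset_card']
            simp
    have h2 : (N : ℝ) ≤ N₁ := by exact_mod_cast h.le
    calc (({c : ℕ | 1 ≤ c ∧ c ≤ N ∧ 2 ∣ c ∧ D2 c}.ncard : ℕ) : ℝ) ≤ (N : ℝ) := by exact_mod_cast h1
      _ ≤ max 1 (N₁ : ℝ) * 1 := by rw [mul_one]; exact h2.trans (le_max_right _ _)
      _ ≤ max 1 (N₁ : ℝ) * (N : ℝ) ^ (1 - min κ (1 / 2)) := by
          apply mul_le_mul_of_nonneg_left hpow1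
          exact le_trans zero_le_one (le_max_left _ _)
  · have h1 := hN₀ N (hN₁ N h).1
    have h2 : ({c : ℕ | 1 ≤ c ∧ c ≤ N ∧ 2 ∣ c ∧ D2 c}.ncard) ≤
        ({c : ℕ | 1 ≤ c ∧ c ≤ N ∧ ∃ u V k l A : ℕ, c = u * V ∧ 1 ≤ k ∧ l.Prime ∧
          Real.log l ≤ Real.log N ^ (1 - (1 / 4 : ℝ)) ∧
          (k.primeFactors.card : ℝ) ≤ Real.exp (Real.log N ^ (1 - (1 / 4 : ℝ))) ∧
          EqE u V k l A}.ncard) := by
      apply Set.ncard_le_ncard
      · rintro c ⟨hc1, hc2, hc3, hc4⟩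
        exact ⟨hc1, hc2, key N h c hc1 hc2 hc3 hc4⟩
      · exact (Set.finite_Icc 1 N).subset (fun c hc => ⟨hc.1, hc.2.1⟩)
    calc (({c : ℕ | 1 ≤ c ∧ c ≤ N ∧ 2 ∣ c ∧ D2 c}.ncard : ℕ) : ℝ) ≤ (N : ℝ) ^ (1 - κ) :=
          le_trans (by exact_mod_cast h2) h1
      _ ≤ (N : ℝ) ^ (1 - min κ (1 / 2)) := by
          apply Real.rpow_le_rpow_of_exponent_le hN1
          have := min_le_left κ (1 / 2)
          linarith
      _ ≤ max 1 (N₁ : ℝ) * (N : ℝ) ^ (1 - min κ (1 / 2)) := by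
          have h3 : (0 : ℝ) ≤ (N : ℝ) ^ (1 - min κ (1 / 2)) := by positivity
          have h4 : (1 : ℝ) ≤ max 1 (N₁ : ℝ) := le_max_left _ _
          nlinarith

end Pool.Agent.Work.MP_2738db_nt_C.helper87
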