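import Pool.Agent.Work.MP_2738db_nt_C.Interface

set_option autoImplicit false

/-! Block RED of MP_2738db (COPRIME EXPONENTS), helper87: the factor `v ^ b ± u ^ b`. -/

namespace Pool.Agent.Work.MP_2738db_nt_C.helper87

open Finset

/-- split `k = a * b`, `a` odd with all primes dividing `L`, `b` without odd prime factors
dividing `L` -/
theorem split_k (L : ℕ) : ∀ k : ℕ, 1 ≤ k → ∃ a b : ℕ, k = a * b ∧ Odd a ∧
    (∀ p : ℕ, p.Prime → p ∣ a → p ∣ L) ∧ 1 ≤ b ∧
    (∀ p : ℕ, p.Prime → p ∣ L → p ≠ 2 → ¬ p ∣ b) := by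
  intro k
  induction k using Nat.strong_induction_on with
  | _ k ih =>
    intro hk
    by_cases h : ∃ p : ℕ, p.Prime ∧ p ∣ L ∧ p ≠ 2 ∧ p ∣ k
    · obtain ⟨p, hp, hpL, hp2, k', rfl⟩ := h
      have hk' : 1 ≤ k' := by
        rcases Nat.eq_zero_or_pos k' with h0 | h0
        · subst h0; omega
        · exact h0
      have hlt : k' < p * k' := by
        have := hp.two_le
        nlinarith
      obtain ⟨a, b, hab, ha, haL, hb, hbL⟩ := ih k' hlt hk'
      refine ⟨p * a, b, by rw [hab, mul_assoc], (hp.odd_of_ne_two hp2).mul ha, ?_, hb, hbL⟩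
      intro q hq hqd
      rcases (Nat.Prime.dvd_mul hq).mp hqd with h1 | h1
      · rw [(Nat.prime_dvd_prime_iff_eq hq hp).mp h1]; exact hpL
      · exact haL q hq h1
    · push Not at h
      refine ⟨1, k, (one_mul k).symm, odd_one, ?_, hk, fun p hp hpL hp2 => h p hp hpL hp2⟩
      intro p hp hp1
      exact absurd (Nat.dvd_one.mp hp1) hp.one_lt.ne'

/-- common primes of `x - y` and `(x ^ a - y ^ a) / (x - y)` divide `a` -/
theorem common_dvd (x y : ℤ) (a F H p : ℕ) (hF0 : F ≠ 0) (hF : (F : ℤ) = x - y)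
    (hFH : ((F * H : ℕ) : ℤ) = x ^ a - y ^ a) (hp : p.Prime) (h1 : p ∣ F) (h2 : p ∣ H)
    (hy : ¬ (p : ℤ) ∣ y) : p ∣ a := by
  have hH : (H : ℤ) = ∑ i ∈ range a, x ^ i * y ^ (a - 1 - i) := by
    have h3 := (Commute.all x y).geom_sum₂_mul a
    rw [← hFH, ← hF] at h3
    push_cast at h3
    have hF0' : (F : ℤ) ≠ 0 := by exact_mod_cast hF0
    have h4 : (H : ℤ) * F = (∑ i ∈ range a, x ^ i * y ^ (a - 1 - i)) * F := by
      rw [h3]; ring
    exact mul_right_cancel₀ hF0' h4
  have h5 : (p : ℤ) ∣ x - y := by rw [← hF]; exact_mod_cast h1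
  have h6 : (p : ℤ) ∣ ∑ i ∈ range a, x ^ i * y ^ (a - 1 - i) := by rw [← hH]; exact_mod_cast h2
  rw [dvd_geom_sum₂_iff_of_dvd_sub h5] at h6
  have hpp : Prime (p : ℤ) := Nat.prime_iff_prime_int.mp hp
  rcases hpp.dvd_or_dvd h6 with h7 | h7
  · exact_mod_cast h7
  · exact absurd (hpp.dvd_of_dvd_pow h7) hy

/-- the size of the `p`-part for odd `p ∣ L` -/
theorem val_le (u v b F p : ℕ) (hu : 1 ≤ u) (huv : u < v) (hcop : Nat.Coprime u v) (hb : 1 ≤ b)
    (hF : F ∣ v ^ (2 * b) - u ^ (2 * b)) (hp : p.Prime) (hp2 : p ≠ 2) (hpb : ¬ p ∣ b)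
    (hpF : p ∣ F) : (F.factorization p : ℝ) ≤ 2 * p * Real.log v := by
  haveI : Fact p.Prime := ⟨hp⟩
  have hlt : u ^ (2 * b) < v ^ (2 * b) := Nat.pow_lt_pow_left huv (by omega)
  have hpv : ¬ p ∣ v := by
    intro h
    have h1 : p ∣ v ^ (2 * b) := dvd_pow h (by omega)
    have h2 : p ∣ v ^ (2 * b) - u ^ (2 * b) := hpF.trans hF
    have h3 : p ∣ u ^ (2 * b) := by
      have h4 := (Nat.dvd_sub h1 h2)
      rwa [Nat.sub_sub_self hlt.le] at h4
    exact hp.one_lt.ne' (Nat.dvd_one.mp (hcop ▸ Nat.dvd_gcd (hp.dvd_of_dvd_pow h3) h))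
  have hpu : ¬ p ∣ u := by
    intro h
    have h1 : p ∣ u ^ (2 * b) := dvd_pow h (by omega)
    have h2 : p ∣ v ^ (2 * b) - u ^ (2 * b) := hpF.trans hF
    have h3 : p ∣ v ^ (2 * b) := by
      have h4 := (Nat.dvd_add h2 h1)
      rwa [Nat.sub_add_cancel hlt.le] at h4
    exact hpv (hp.dvd_of_dvd_pow h3)
  have hp3 : 3 ≤ p := by
    have := hp.two_le
    omega
  set X := v ^ (p - 1) with hX
  set Y := u ^ (p - 1) with hY
  have hYX : Y < X := Nat.pow_lt_pow_left huv (by omega)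
  have hdX : p ∣ X - 1 := by
    have h1 : v ^ (p - 1) ≡ 1 [MOD p] := by
      have h2 := Nat.ModEq.pow_totient ((Nat.Prime.coprime_iff_not_dvd hp).mpr hpv).symm
      rwa [Nat.totient_prime hp] at h2
    exact (Nat.modEq_iff_dvd' (Nat.one_le_pow _ _ (by omega))).mp h1.symm
  have hdY : p ∣ Y - 1 := by
    have h1 : u ^ (p - 1) ≡ 1 [MOD p] := by
      have h2 := Nat.ModEq.pow_totient ((Nat.Prime.coprime_iff_not_dvd hp).mpr hpu).symm
      rwa [Nat.totient_prime hp] at h2
    exact (Nat.modEq_iff_dvd' (Nat.one_le_pow _ _ (by omega))).mp h1.symm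
  have hY1 : 1 ≤ Y := Nat.one_le_pow _ _ hu
  have hdXY : p ∣ X - Y := by
    have h1 := Nat.dvd_sub hdX hdY
    have h2 : X - 1 - (Y - 1) = X - Y := by omega
    rwa [h2] at h1
  have hpX : ¬ p ∣ X := fun h => hpv (hp.dvd_of_dvd_pow h)
  have hlte := padicValNat.pow_sub_pow (hp.odd_of_ne_two hp2) hYX hdXY hpX
    (n := 2 * b) (by omega)
  have hval2b : padicValNat p (2 * b) = 0 := by
    apply padicValNat.eq_zero_of_not_dvd
    intro h
    rcases (Nat.Prime.dvd_mul hp).mp h with h1 | h1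
    · exact hp2 ((Nat.prime_dvd_prime_iff_eq hp Nat.prime_two).mp h1)
    · exact hpb h1
  rw [hval2b, add_zero] at hlte
  have hdiv : v ^ (2 * b) - u ^ (2 * b) ∣ X ^ (2 * b) - Y ^ (2 * b) := by
    have h1 := Nat.sub_dvd_pow_sub_pow (v ^ (2 * b)) (u ^ (2 * b)) (p - 1)
    have h2 : (v ^ (2 * b)) ^ (p - 1) = X ^ (2 * b) := by rw [hX, ← pow_mul, ← pow_mul, mul_comm]
    have h3 : (u ^ (2 * b)) ^ (p - 1) = Y ^ (2 * b) := by rw [hY, ← pow_mul, ← pow_mul, mul_comm]
    rwa [h2, h3] at h1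
  have hne : X ^ (2 * b) - Y ^ (2 * b) ≠ 0 :=
    Nat.sub_ne_zero_of_lt (Nat.pow_lt_pow_left hYX (by omega))
  have h1 : F.factorization p ≤ padicValNat p (X - Y) := by
    rw [← hlte]
    have h2 : F ∣ X ^ (2 * b) - Y ^ (2 * b) := hF.trans hdiv
    have h3 := (Nat.factorization_le_iff_dvd (ne_zero_of_dvd_ne_zero hne h2) hne).mpr h2 p
    rwa [Nat.factorization_def (X ^ (2 * b) - Y ^ (2 * b)) hp] at h3
  have h2 : p ^ padicValNat p (X - Y) ≤ X := by
    have h3 : p ^ padicValNat p (X - Y) ∣ X - Y := pow_padicValNat_dvd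
    have h4 := Nat.le_of_dvd (by omega) h3
    omega
  have h3 : p ^ F.factorization p ≤ v ^ p := by
    calc p ^ F.factorization p ≤ p ^ padicValNat p (X - Y) :=
          Nat.pow_le_pow_right hp.pos h1
      _ ≤ v ^ (p - 1) := h2
      _ ≤ v ^ p := Nat.pow_le_pow_right (by omega) (by omega)
  have h4 : (F.factorization p : ℝ) * Real.log p ≤ p * Real.log v := by
    rw [← Real.log_pow, ← Real.log_pow]
    apply Real.log_le_log
    · have : (0 : ℝ) < p := by exact_mod_cast hp.pos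
      positivity
    · exact_mod_cast h3
  have h5 : (1 : ℝ) / 2 ≤ Real.log p := by
    have h6 : Real.log 2 ≤ Real.log p := Real.log_le_log (by norm_num) (by exact_mod_cast hp.two_le)
    have := Real.log_two_gt_d9
    linarith
  have h7 : (0 : ℝ) ≤ (F.factorization p : ℝ) := by positivity
  nlinarith

/-- main lemma -/
theorem core (u v b F H A l L : ℕ) (hu : 1 ≤ u) (huv : u < v) (hcop : Nat.Coprime u v)
    (hb : 1 ≤ b) (hl : 1 ≤ l) (hL : 2 ∣ L)
    (hbL : ∀ p : ℕ, p.Prime → p ∣ L → p ≠ 2 → ¬ p ∣ b) (hF0 : F ≠ 0) (hFH : F * H = 2 * A ^ l)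
    (hgcd : ∀ p : ℕ, p.Prime → p ∣ F → p ∣ H → p ∣ L) (hH0 : H ≠ 0)
    (hFd : F ∣ v ^ (2 * b) - u ^ (2 * b)) :
    ∃ δ B : ℕ, 1 ≤ δ ∧ (∀ p : ℕ, p.Prime → p ∣ δ → p ∣ L) ∧ δ.factorization 2 < l ∧
      (∀ p : ℕ, p.Prime → p ≠ 2 → (δ.factorization p : ℝ) ≤ 2 * p * Real.log v) ∧
      F = δ * B ^ l := by
  classical
  have hlogv : 0 ≤ Real.log v := Real.log_natCast_nonneg v
  -- the valuations outside `L`
  have hval : ∀ p : ℕ, p.Prime → ¬ p ∣ L → l ∣ F.factorization p := by
    intro p hp hpL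
    by_cases h1 : p ∣ F
    · have h2 : ¬ p ∣ H := fun h => hpL (hgcd p hp h1 h)
      have hA0 : A ^ l ≠ 0 := by
        intro h
        rw [h, mul_zero] at hFH
        exact (mul_ne_zero hF0 hH0) hFH
      have h3 : (F * H).factorization p = (2 * A ^ l).factorization p := by rw [hFH]
      rw [Nat.factorization_mul hF0 hH0, Nat.factorization_mul two_ne_zero hA0,
        Nat.factorization_pow] at h3
      simp only [Finsupp.coe_add, Pi.add_apply, Finsupp.coe_smul, Pi.smul_apply,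
        smul_eq_mul] at h3
      rw [Nat.factorization_eq_zero_of_not_dvd h2] at h3
      have h4 : (2 : ℕ).factorization p = 0 := by
        apply Nat.factorization_eq_zero_of_not_dvd
        intro h5
        have h6 := (Nat.prime_dvd_prime_iff_eq hp Nat.prime_two).mp h5
        subst h6
        exact hpL hL
      rw [h4] at h3
      exact ⟨A.factorization p, by omega⟩
    · rw [Nat.factorization_eq_zero_of_not_dvd h1]
      exact dvd_zero l
  set dd : ℕ → ℕ := fun p => if p ∣ L then (if p = 2 then F.factorization 2 % l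
    else F.factorization p) else 0 with hdd
  set bb : ℕ → ℕ := fun p => if p ∣ L then (if p = 2 then F.factorization 2 / l else 0)
    else F.factorization p / l with hbb
  have hdz : ∀ p, F.factorization p = 0 → dd p = 0 := by
    intro p h
    simp only [hdd]
    split_ifs with h1 h2
    · subst h2; rw [h]; exact Nat.zero_mod l
    · exact h
    · rfl
  have hbz : ∀ p, F.factorization p = 0 → bb p = 0 := by
    intro p h
    simp only [hbb]
    split_ifs with h1 h2
    · subst h2; rw [h]; exact Nat.zero_div l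
    · rfl
    · rw [h]; exact Nat.zero_div l
  set fd : ℕ →₀ ℕ := Finsupp.onFinset F.primeFactors dd (by
    intro p hp
    rw [← Nat.support_factorization, Finsupp.mem_support_iff]
    exact fun h => hp (hdz p h)) with hfd
  set fb : ℕ →₀ ℕ := Finsupp.onFinset F.primeFactors bb (by
    intro p hp
    rw [← Nat.support_factorization, Finsupp.mem_support_iff]
    exact fun h => hp (hbz p h)) with hfb
  have hfds : ∀ p ∈ fd.support, Nat.Prime p := by
    intro p hp
    have h1 : dd p ≠ 0 := by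
      have := Finsupp.mem_support_iff.mp hp
      exact this
    by_contra hnp
    exact h1 (hdz p (Nat.factorization_eq_zero_of_not_prime _ hnp))
  have hfbs : ∀ p ∈ fb.support, Nat.Prime p := by
    intro p hp
    have h1 : bb p ≠ 0 := by
      have := Finsupp.mem_support_iff.mp hp
      exact this
    by_contra hnp
    exact h1 (hbz p (Nat.factorization_eq_zero_of_not_prime _ hnp))
  have hδf : (fd.prod (· ^ ·)).factorization = fd := Nat.prod_pow_factorization_eq_self hfds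
  have hBf : (fb.prod (· ^ ·)).factorization = fb := Nat.prod_pow_factorization_eq_self hfbs
  have hδ0 : fd.prod (· ^ ·) ≠ 0 := by
    rw [Finsupp.prod, Finset.prod_ne_zero_iff]
    intro p hp
    exact pow_ne_zero _ (hfds p hp).ne_zero
  have hB0 : fb.prod (· ^ ·) ≠ 0 := by
    rw [Finsupp.prod, Finset.prod_ne_zero_iff]
    intro p hp
    exact pow_ne_zero _ (hfbs p hp).ne_zero
  refine ⟨fd.prod (· ^ ·), fb.prod (· ^ ·), Nat.one_le_iff_ne_zero.mpr hδ0, ?_, ?_, ?_, ?_⟩
  · intro p hp hpd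
    by_contra hpL
    have h1 : (fd.prod (· ^ ·)).factorization p ≠ 0 :=
      (hp.factorization_pos_of_dvd hδ0 hpd).ne'
    rw [hδf] at h1
    apply h1
    change dd p = 0
    simp only [hdd]
    rw [if_neg hpL]
  · rw [hδf]
    change dd 2 < l
    have h1 : dd 2 = F.factorization 2 % l := by
      simp [hdd, hL]
    rw [h1]
    exact Nat.mod_lt _ hl
  · intro p hp hp2
    rw [hδf]
    change ((dd p : ℕ) : ℝ) ≤ _
    have h0 : (0 : ℝ) ≤ 2 * p * Real.log v := by positivity
    simp only [hdd]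
    split_ifs with h1
    · by_cases h2 : p ∣ F
      · exact val_le u v b F p hu huv hcop hb hFd hp hp2 (hbL p hp h1 hp2) h2
      · rw [Nat.factorization_eq_zero_of_not_dvd h2]
        push_cast
        exact h0
    · push_cast
      exact h0
  · apply Nat.eq_of_factorization_eq hF0 (mul_ne_zero hδ0 (pow_ne_zero _ hB0))
    intro p
    rw [Nat.factorization_mul hδ0 (pow_ne_zero _ hB0), Nat.factorization_pow, hδf, hBf]
    change F.factorization p = dd p + l * bb p
    by_cases hp : p.Prime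
    · simp only [hdd, hbb]
      split_ifs with h1 h2
      · subst h2
        exact (Nat.mod_add_div _ _).symm
      · omega
      · rw [zero_add, Nat.mul_div_cancel' (hval p hp h1)]
    · have h1 := Nat.factorization_eq_zero_of_not_prime F hp
      rw [hdz p h1, hbz p h1, h1, mul_zero, add_zero]

theorem red : Stmt_Red := by
  intro u v k l A L hu huv hcop h2u h2v hk hl hL1 hL2
  obtain ⟨a, b, hab, ha, haL, hb, hbL⟩ := split_k L k hk
  have hub : 1 ≤ u ^ b := Nat.one_le_pow _ _ hu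
  have hvb : u ^ b < v ^ b := Nat.pow_lt_pow_left huv (by omega)
  have hvb2 : u ^ (2 * b) < v ^ (2 * b) := Nat.pow_lt_pow_left huv (by omega)
  have hbk : b ∣ k := ⟨a, by rw [hab, mul_comm]⟩
  have hfac : v ^ (2 * b) - u ^ (2 * b) = (v ^ b - u ^ b) * (v ^ b + u ^ b) := by
    have h1 := Nat.sq_sub_sq (v ^ b) (u ^ b)
    rw [← pow_mul, ← pow_mul] at h1
    rw [mul_comm 2 b, h1, mul_comm]
  have hcopp : ∀ p : ℕ, p.Prime → p ∣ u ^ b → p ∣ v ^ b → False := by
    intro p hp h1 h2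
    exact hp.one_lt.ne' (Nat.dvd_one.mp (hcop ▸ Nat.dvd_gcd (hp.dvd_of_dvd_pow h1)
      (hp.dvd_of_dvd_pow h2)))
  have hkk : k = b * a := by rw [hab, mul_comm]
  constructor
  · intro hG
    have hdvd : v ^ b + u ^ b ∣ v ^ k + u ^ k := by
      have h1 := Odd.nat_add_dvd_pow_add_pow (v ^ b) (u ^ b) ha
      rwa [← pow_mul, ← pow_mul, ← hkk] at h1
    obtain ⟨H, hH⟩ := hdvd
    have hF0 : v ^ b + u ^ b ≠ 0 := by omega
    have hG0 : v ^ k + u ^ k ≠ 0 := by
      have := Nat.one_le_pow k u hu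
      omega
    have hH0 : H ≠ 0 := by
      rintro rfl
      rw [mul_zero] at hH
      exact hG0 hH
    have hg : ∀ p : ℕ, p.Prime → p ∣ v ^ b + u ^ b → p ∣ H → p ∣ L := by
      intro p hp h1 h2
      apply haL p hp
      refine common_dvd ((v : ℤ) ^ b) (-(u : ℤ) ^ b) a (v ^ b + u ^ b) H p hF0 ?_ ?_ hp h1 h2 ?_
      · push_cast; ring
      · rw [← hH, Odd.neg_pow ha, ← pow_mul, ← pow_mul, ← hkk]
        push_cast; ring
      · intro h3
        have h4 : (p : ℤ) ∣ ((u ^ b : ℕ) : ℤ) := by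
          push_cast
          exact (dvd_neg.mp h3)
        have h5 : p ∣ u ^ b := by exact_mod_cast h4
        have h6 : p ∣ v ^ b := (Nat.dvd_add_iff_left h5).mpr h1
        exact hcopp p hp h5 h6
    obtain ⟨δ, B, h1, h2, h3, h4, h5⟩ := core u v b (v ^ b + u ^ b) H A l L hu huv hcop hb hl.one_le
      hL2 hbL hF0 (hH ▸ hG) hg hH0 (by rw [hfac]; exact Dvd.intro_left _ rfl)
    exact ⟨b, δ, B, hb, hbk, hbL, h1, h2, h3, h4, h5⟩
  · intro hG
    have hlt : u ^ k < v ^ k := Nat.pow_lt_pow_left huv (by omega)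
    have hG' : v ^ k - u ^ k = 2 * A ^ l := by omega
    have hdvd : v ^ b - u ^ b ∣ v ^ k - u ^ k := by
      have h1 := Nat.sub_dvd_pow_sub_pow (v ^ b) (u ^ b) a
      rwa [← pow_mul, ← pow_mul, ← hkk] at h1
    obtain ⟨H, hH⟩ := hdvd
    have hF0 : v ^ b - u ^ b ≠ 0 := by omega
    have hG0 : v ^ k - u ^ k ≠ 0 := by omega
    have hH0 : H ≠ 0 := by
      rintro rfl
      rw [mul_zero] at hH
      exact hG0 hH
    have hg : ∀ p : ℕ, p.Prime → p ∣ v ^ b - u ^ b → p ∣ H → p ∣ L := by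
      intro p hp h1 h2
      apply haL p hp
      refine common_dvd ((v : ℤ) ^ b) ((u : ℤ) ^ b) a (v ^ b - u ^ b) H p hF0 ?_ ?_ hp h1 h2 ?_
      · rw [Nat.cast_sub hvb.le]; push_cast; ring
      · rw [← hH, ← pow_mul, ← pow_mul, ← hkk, Nat.cast_sub hlt.le]
        push_cast; ring
      · intro h3
        have h5 : p ∣ u ^ b := by exact_mod_cast h3
        have h6 : p ∣ v ^ b := by
          have h7 := Nat.dvd_add h1 h5
          rwa [Nat.sub_add_cancel hvb.le] at h7
        exact hcopp p hp h5 h6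
    obtain ⟨δ, B, h1, h2, h3, h4, h5⟩ := core u v b (v ^ b - u ^ b) H A l L hu huv hcop hb hl.one_le
      hL2 hbL hF0 (hH ▸ hG') hg hH0 (by rw [hfac]; exact Dvd.intro _ rfl)
    exact ⟨b, δ, B, hb, hbk, hbL, h1, h2, h3, h4, by omega⟩

end Pool.Agent.Work.MP_2738db_nt_C.helper87
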